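import Pool.Agent.U722.FF.Stm

/-!
# Project FF (Serre FP versus FF), package TRC: elements with powers of bounded degree
-/

set_option autoImplicit false

namespace Pool.Agent.U15.FFP

open U722.FF Matrix

lemma tr_rec {R : Type} [CommRing R] (A : Matrix (Fin 2) (Fin 2) R) (k : ℕ) :
    (A ^ (k + 2)).trace = A.trace * (A ^ (k + 1)).trace - A.det * (A ^ k).trace := by
  have h : A * A = A.trace • A - A.det • 1 := by
    ext i j
    fin_cases i <;> fin_cases j <;>
      simp [Matrix.mul_apply, Matrix.trace_fin_two, Matrix.det_fin_two, Fin.sum_univ_two] <;> ring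
  have h2 : A ^ (k + 2) = A.trace • A ^ (k + 1) - A.det • A ^ k := by
    rw [pow_add, pow_two, h, mul_sub, Matrix.mul_smul, Matrix.mul_smul, mul_one, ← pow_succ]
  rw [h2, Matrix.trace_sub, Matrix.trace_smul, Matrix.trace_smul, smul_eq_mul, smul_eq_mul]

theorem t_TRC : S_TRC := by
  intro n c h hb
  set A : Matrix (Fin 2) (Fin 2) (MvPolynomial (Fin n) ℤ) := h.1 with hA
  have hdet : A.det.totalDegree = 0 := by
    have h1 : IsUnit A.det := (Matrix.isUnit_iff_isUnit_det A).1 h.isUnit
    exact (MvPolynomial.isUnit_iff_totalDegree_of_isReduced.1 h1).2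
  have hpow : ∀ k : ℕ, (A ^ k).trace.totalDegree ≤ c := by
    intro k
    have h1 : (h ^ k).1 = A ^ k := Units.val_pow_eq_pow_val h k
    rw [Matrix.trace_fin_two]
    refine (MvPolynomial.totalDegree_add _ _).trans (max_le ?_ ?_)
    · rw [← h1]
      exact hb k 0 0
    · rw [← h1]
      exact hb k 1 1
  by_cases hd : A.trace.totalDegree = 0
  · exact ⟨_, MvPolynomial.totalDegree_eq_zero_iff_eq_C.1 hd⟩
  · exfalso
    set d := A.trace.totalDegree with hdd
    have hd1 : 1 ≤ d := Nat.one_le_iff_ne_zero.2 hd
    have ht0 : A.trace ≠ 0 := by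
      intro h0
      rw [hdd, h0, MvPolynomial.totalDegree_zero] at hd
      exact hd rfl
    have key : ∀ k : ℕ, (A ^ k).trace.totalDegree ≤ k * d ∧
        (A ^ (k + 1)).trace.totalDegree = (k + 1) * d := by
      intro k
      induction k with
      | zero =>
        refine ⟨?_, by simp [hdd]⟩
        have h2 : (A ^ 0).trace = MvPolynomial.C 2 := by
          rw [pow_zero, Matrix.trace_one]
          simp
        rw [h2, MvPolynomial.totalDegree_C]
        exact Nat.zero_le _
      | succ k ih =>
        obtain ⟨h1, h2⟩ := ih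
        refine ⟨h2.le, ?_⟩
        have hne : (A ^ (k + 1)).trace ≠ 0 := by
          intro h0
          rw [h0, MvPolynomial.totalDegree_zero] at h2
          have : 1 ≤ (k + 1) * d := Nat.mul_pos (Nat.succ_pos k) hd1
          omega
        have h3 : (A.trace * (A ^ (k + 1)).trace).totalDegree = (k + 2) * d := by
          rw [MvPolynomial.totalDegree_mul_of_isDomain ht0 hne, h2, ← hdd]
          ring
        have h4 : (-(A.det * (A ^ k).trace)).totalDegree ≤ k * d := by
          rw [MvPolynomial.totalDegree_neg]
          refine (MvPolynomial.totalDegree_mul _ _).trans ?_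
          rw [hdet, zero_add]
          exact h1
        rw [show k + 1 + 1 = k + 2 from rfl, tr_rec, sub_eq_add_neg,
          MvPolynomial.totalDegree_add_eq_left_of_totalDegree_lt, h3]
        rw [h3]
        have : k * d < (k + 2) * d := Nat.mul_lt_mul_of_pos_right (by omega) hd1
        omega
    have h5 := (key c).2
    have h6 := hpow (c + 1)
    rw [h5] at h6
    have : c + 1 ≤ (c + 1) * d := Nat.le_mul_of_pos_right _ hd1
    omega

end Pool.Agent.U15.FFP
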